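import Pool.Graph.R_seed8.H333R2.Col.Pairs

/-!
# The splitting property under flips and additions of vertices
-/

namespace Pool.Agent.KS6_76.COL

open Pool.Agent.H333R2.Col Pool.Agent.H622R2 Pool.Agent.Helper856.PairStmt
  Pool.Agent.Helper856.Lcw Pool.Agent.Helper856.Cw SimpleGraph

/-- The flip of `G` given by a partition of the vertices into `p` parts and a set `F` of
(unordered) pairs of parts (also pairs of equal parts): two different vertices `u`, `v` change
their adjacency if the pair of their parts is in `F`. -/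
def flip {V : Type} {p : ℕ} (G : SimpleGraph V) (c : V → Fin p) (F : Set (Sym2 (Fin p))) :
    SimpleGraph V where
  Adj u v := u ≠ v ∧ (G.Adj u v ↔ s(c u, c v) ∉ F)
  symm := ⟨fun u v h => ⟨h.1.symm, by rw [G.adj_comm, Sym2.eq_swap]; exact h.2⟩⟩
  loopless := ⟨fun u h => h.1 rfl⟩

/-- `G` is near the class `C`: after the deletion of at most `s` vertices some flip with `p` parts
is in `C`. -/
def Near (s p : ℕ) (C : ∀ V : Type, SimpleGraph V → Prop) (V : Type) (G : SimpleGraph V) : Prop :=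
  ∃ S : Set V, S.ncard ≤ s ∧ ∃ (c : ↥Sᶜ → Fin p) (F : Set (Sym2 (Fin p))),
    C ↥Sᶜ (flip (G.induce Sᶜ) c F)

theorem hasSplits_of_flip {V : Type} {p k : ℕ} {G : SimpleGraph V} {c : V → Fin p}
    {F : Set (Sym2 (Fin p))} (h : HasSplits k (flip G c F)) : HasSplits (k * p) G := by
  intro X m hX
  obtain ⟨Z, τ, ha, h1, h2⟩ := h X m hX
  refine ⟨Z, fun v => finProdFinEquiv (τ v, c v), ?_, h1, h2⟩
  intro u hu v hv huv w hw
  have h3 := finProdFinEquiv.injective huv
  simp only [Prod.mk.injEq] at h3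
  have hu' : u ≠ w := fun h => hw (h ▸ hu)
  have hv' : v ≠ w := fun h => hw (h ▸ hv)
  have h4 := ha u hu v hv h3.1 w hw
  simp only [flip, ne_eq, hu', hv', not_false_eq_true, true_and, h3.2] at h4
  by_cases hF : s(c v, c w) ∈ F
  · simp only [hF, not_true, iff_false] at h4
    exact not_iff_not.1 h4
  · simp only [hF, not_false_eq_true, iff_true] at h4
    exact h4

theorem hasSplits_of_delete {V : Type} [Finite V] {s k : ℕ} {G : SimpleGraph V} {S : Set V}
    (hS : S.ncard ≤ s) (h : HasSplits k (G.induce Sᶜ)) :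
    HasSplits (k * 2 ^ s + s) G := by
  classical
  intro X m hX
  -- the trace outside of `S`
  set X' : Set ↥Sᶜ := Subtype.val ⁻¹' X with hX'
  obtain ⟨Z', τ, ha, h1, h2⟩ := h X' (X'.ncard / 3) (by omega)
  have im : ∀ A : Set ↥Sᶜ, (Subtype.val '' A : Set V).ncard = A.ncard := fun A =>
    Set.ncard_image_of_injective _ Subtype.val_injective
  have e1 : (Subtype.val '' X' : Set V) = X \ S := by
    ext v; constructor
    · rintro ⟨⟨v, hv⟩, hv', rfl⟩; exact ⟨hv', hv⟩
    · rintro ⟨h1, h2⟩; exact ⟨⟨v, h2⟩, h1, rfl⟩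
  have c0 : X'.ncard + (X ∩ S).ncard = X.ncard := by
    rw [← im, e1, add_comm]; exact Set.ncard_inter_add_ncard_sdiff_eq_ncard X S
  have c1 : (X' ∩ Z').ncard + (X' \ Z').ncard = X'.ncard :=
    Set.ncard_inter_add_ncard_sdiff_eq_ncard X' Z'
  -- choose the part of `S`
  set t := m - (X' ∩ Z').ncard with ht
  have ht' : t ≤ (X ∩ S).ncard := by omega
  obtain ⟨S₁, hS₁, hc⟩ := Set.exists_subset_card_eq ht'
  set Z : Set V := (Subtype.val '' Z') ∪ S₁ with hZ
  have hS₁S : S₁ ⊆ S := hS₁.trans Set.inter_subset_right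
  have hS₁X : S₁ ⊆ X := hS₁.trans Set.inter_subset_left
  have z1 : X ∩ Z = Subtype.val '' (X' ∩ Z') ∪ S₁ := by
    ext v; constructor
    · rintro ⟨hv, ⟨z, hz, rfl⟩ | hv'⟩
      · exact Or.inl ⟨z, ⟨hv, hz⟩, rfl⟩
      · exact Or.inr hv'
    · rintro (⟨z, ⟨hz1, hz2⟩, rfl⟩ | hv)
      · exact ⟨hz1, Or.inl ⟨z, hz2, rfl⟩⟩
      · exact ⟨hS₁X hv, Or.inr hv⟩
  have z2 : (X ∩ Z).ncard = (X' ∩ Z').ncard + t := by
    rw [z1, Set.ncard_union_eq, im, hc]
    rw [Set.disjoint_left]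
    rintro _ ⟨z, _, rfl⟩ hz
    exact z.2 (hS₁S hz)
  have z3 : (X ∩ Z).ncard + (X \ Z).ncard = X.ncard :=
    Set.ncard_inter_add_ncard_sdiff_eq_ncard X Z
  -- the types
  have card : Fintype.card ((Fin k × (Fin s → Bool)) ⊕ Fin s) = k * 2 ^ s + s := by simp
  have := Fintype.ofFinite ↥S
  obtain ⟨g⟩ : Nonempty (↥S ↪ Fin s) := by
    rw [Function.Embedding.nonempty_iff_card_le, Fintype.card_fin, ← Nat.card_eq_fintype_card]
    exact hS
  let σ : V → (Fin k × (Fin s → Bool)) ⊕ Fin s := fun v =>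
    if hv : v ∈ S then Sum.inr (g ⟨v, hv⟩)
    else Sum.inl (τ ⟨v, hv⟩, fun i => decide (∃ x : ↥S, g x = i ∧ G.Adj v x))
  refine ⟨Z, fun v => (Fintype.equivFinOfCardEq card) (σ v), ?_, by omega, by omega⟩
  intro u hu v hv huv w hw
  have h3 : σ u = σ v := (Fintype.equivFinOfCardEq card).injective huv
  by_cases hus : u ∈ S <;> by_cases hvs : v ∈ S
  · simp only [σ, hus, hvs, dif_pos, Sum.inr.injEq, EmbeddingLike.apply_eq_iff_eq,
      Subtype.mk.injEq] at h3
    rw [h3]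
  · simp [σ, hus, hvs] at h3
  · simp [σ, hus, hvs] at h3
  · simp only [σ, hus, hvs, not_false_eq_true, dif_neg, Sum.inl.injEq, Prod.mk.injEq] at h3
    have hu2 : (⟨u, hus⟩ : ↥Sᶜ) ∈ Z' := by
      rcases hu with ⟨z, hz, hz'⟩ | hu
      · have : z = ⟨u, hus⟩ := Subtype.ext hz'
        rwa [this] at hz
      · exact absurd (hS₁S hu) hus
    have hv2 : (⟨v, hvs⟩ : ↥Sᶜ) ∈ Z' := by
      rcases hv with ⟨z, hz, hz'⟩ | hv
      · have : z = ⟨v, hvs⟩ := Subtype.ext hz'
        rwa [this] at hz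
      · exact absurd (hS₁S hv) hvs
    by_cases hws : w ∈ S
    · have h4 := congrFun h3.2 (g ⟨w, hws⟩)
      simp only [decide_eq_decide] at h4
      constructor
      · intro hh
        obtain ⟨x, hx, hx'⟩ := h4.1 ⟨⟨w, hws⟩, rfl, hh⟩
        rwa [g.injective hx] at hx'
      · intro hh
        obtain ⟨x, hx, hx'⟩ := h4.2 ⟨⟨w, hws⟩, rfl, hh⟩
        rwa [g.injective hx] at hx'
    · have hw2 : (⟨w, hws⟩ : ↥Sᶜ) ∉ Z' := fun hh => hw (Or.inl ⟨_, hh, rfl⟩)
      exact ha _ hu2 _ hv2 h3.1 _ hw2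

theorem near_splits {s p k : ℕ} {C : ∀ V : Type, SimpleGraph V → Prop}
    (h : ∀ (V : Type) [Finite V] (G : SimpleGraph V), C V G → HasSplits k G)
    (V : Type) [Finite V] (G : SimpleGraph V) (hG : Near s p C V G) :
    HasSplits (k * p * 2 ^ s + s) G := by
  obtain ⟨S, hS, c, F, hC⟩ := hG
  exact hasSplits_of_delete hS (hasSplits_of_flip (h _ _ hC))

/-- COLOURING is polynomial near every class of bounded clique-width. -/
theorem colouring_near {s p c : ℕ} {C : ∀ V : Type, SimpleGraph V → Prop}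
    (h : ∀ (V : Type) [Finite V] (G : SimpleGraph V), C V G → cliqueWidth G ≤ c) :
    ColouringInPOn (Near s p C) :=
  colouringInPOn_of_splits (near_splits fun V _ G hG => hasSplits_of_cliqueWidth (h V G hG))

theorem near_self {s p : ℕ} (hp : 1 ≤ p) {C : ∀ V : Type, SimpleGraph V → Prop}
    (hC : ∀ (V W : Type) (G : SimpleGraph V) (H : SimpleGraph W), Nonempty (G ≃g H) →
      C V G → C W H) {V : Type} {G : SimpleGraph V} (h : C V G) : Near s p C V G := by
  refine ⟨∅, by simp, fun _ => ⟨0, hp⟩, ∅, hC V _ G _ ⟨?_⟩ h⟩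
  refine ⟨⟨fun v => ⟨v, by simp⟩, fun v => v.1, fun v => rfl, fun v => rfl⟩, ?_⟩
  intro u v
  simp only [flip, Equiv.coe_fn_mk, ne_eq, Subtype.mk.injEq, comap_adj,
    Function.Embedding.subtype_apply, Set.mem_empty_iff_false, not_false_eq_true, iff_true]
  exact ⟨fun h => h.2, fun h => ⟨h.ne, h⟩⟩

end Pool.Agent.KS6_76.COL
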